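import Pool.Agent.Q269.GR.StF

/-!
# Project GR (helper269), job GR-WPB: sums over the monic prime factors
-/

set_option autoImplicit false
set_option linter.all false

open scoped Classical
open Finset Polynomial

namespace Pool.Agent.Q202.GR

open Pool.Agent.Q269.GR
open Pool.Agent.Y164.PS (L Hyp)

theorem mem_pr {k : Type} [Field k] [Fintype k] {D P : k[X]} (h : P ∈ pr D) :
    P.Monic ∧ Irreducible P := by
  rw [pr, Multiset.mem_toFinset] at h
  refine ⟨?_, UniqueFactorizationMonoid.irreducible_of_normalized_factor P h⟩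
  have h1 := UniqueFactorizationMonoid.normalize_normalized_factor P h
  have h2 := Polynomial.monic_normalize
    (UniqueFactorizationMonoid.irreducible_of_normalized_factor P h).ne_zero
  rwa [h1] at h2

theorem coprime_irr {k : Type} [Field k] {P Q : k[X]} (hP : P.Monic) (hQ : Q.Monic)
    (hP' : Irreducible P) (hQ' : Irreducible Q) (h : P ≠ Q) : IsCoprime P Q := by
  rw [hP'.coprime_iff_not_dvd]
  intro hd
  exact h (Polynomial.eq_of_monic_of_associated hP hQ (hP'.associated_of_dvd hQ' hd))

theorem sum_J {k : Type} [Field k] [Fintype k] {M : Type} [AddCommMonoid M] (D : k[X]) (r : ℕ)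
    (f : k[X] → M) :
    ∑ i : {i : {P : k[X] // P ∈ pr D} // r ∣ (i.1).natDegree}, f i.1.1 =
      ∑ P ∈ pr D, if r ∣ P.natDegree then f P else 0 := by
  rw [← Finset.sum_coe_sort (pr D) (fun P => if r ∣ P.natDegree then f P else 0)]
  rw [← Finset.sum_filter]
  rw [Finset.sum_subtype (p := fun i : {P : k[X] // P ∈ pr D} => r ∣ (i.1).natDegree)
    (univ.filter (fun i : {P : k[X] // P ∈ pr D} => r ∣ (i.1).natDegree))
    (fun x => by rw [mem_filter]; exact ⟨fun h => h.2, fun h => ⟨mem_univ _, h⟩⟩)
    (fun i => f i.1)]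

end Pool.Agent.Q202.GR
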